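import Pool.Agent.H78.OX.Stmt

/-!
# Interactive proofs with quantum verifiers: definition
-/

set_option autoImplicit false

namespace Pool.Agent.H78.OY

open Pool.Agent.H6.NB

/-- The set `P` of quantum query algorithms gives the right answer to the question whether `x` belongs to
the language `L`: if it does, some member of `P` accepts with probability at least `2/3`; if it does not,
every member of `P` accepts with probability at most `1/3`. For instance `P` is the set of the algorithms
which one gets from a quantum verifier by fixing the witness (initial state), or from the verifier of an
interactive proof with one or several entangled provers by fixing the strategy of the provers: they apply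
arbitrary unitaries to their registers between the operations of the verifier. Only the queries of the
verifier are counted, the strategy may depend on the oracle in an arbitrary way. -/
def PCorrect (P : Set QAlg) (O : List Bool → Bool) (L : Set (List Bool)) (x : List Bool) : Prop :=
  (x ∈ L → ∃ A ∈ P, 2 / 3 ≤ A.prob O) ∧ (x ∉ L → ∀ A ∈ P, A.prob O ≤ 1 / 3)

end Pool.Agent.H78.OY
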