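import Pool.Agent.H58.OX.SGX
import Pool.Agent.H78.OY.Stmt

/-!
# One stage of the construction, for a set of quantum algorithms (an interactive proof)
-/

set_option autoImplicit false

namespace Pool.Agent.H78.OY

open Finset Filter Pool.Agent.H6.NB Pool.Agent.H70.OQ Pool.Agent.H70.EH Pool.Agent.H78.XQ
  Pool.Agent.H78.OX Pool.Agent.H58.OX

/-- SQY: one stage of the construction, for an interactive proof. -/
def T_SQY : Prop := ∀ (k c C : ℕ) (ε : ℝ), 0 < ε → ∀ prog, Smallk (k + 1) prog →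
  ∀ᶠ n : ℕ in atTop, ∀ R : Set QAlg, (∀ Q ∈ R, Q.Short (n ^ c + c) ∧
    (Q.T : ℝ) ≤ C * 2 ^ ((1 / 2 - ε) * n)) → ∀ σ₀ : List Bool → Bool, (∀ s, DecX σ₀ s) →
  ∃ (σ : List Bool → Bool) (m : ℕ),
    (∀ w, w.length < n → σ w = σ₀ w) ∧ (∀ s, DecX σ s) ∧
    (∀ u : List Bool, u.length ≠ n → (Special (k + 1) σ u ↔ Special (k + 1) σ₀ u)) ∧
    ∀ σ' O, (∀ w, w.length ≤ m → σ' w = σ w) → Bldg (acck (k + 1) prog) σ' O →
      ¬ PCorrect R O (hlang (k + 1) O)ᶜ (List.replicate n false)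

theorem sqy (hLAK : T_LAK) (hSTX : T_STX) (hBBV : T_BBV) (hPCG : T_PCG) (hBUG : T_BUG)
    (hSDX : T_SDX) (hSPX : T_SPX) (hSPC : T_SPC) : T_SQY := by
  intro k c C ε hε prog hs
  have hA : LocA (acck (k + 1) prog) := hLAK (k + 1) prog hs
  filter_upwards [hSTX k c (4 * C) ε hε prog hs] with n hn R hR σ₀ hσ
  obtain ⟨a, M, H, κ, P, z, O₁, O, hn2, hnc, hn1, hM1, hfin, hO₁, hO, hDec, hfew⟩ := hn σ₀ hσ
  by_cases hw : ∃ Q ∈ R, 2 / 3 ≤ Q.prob O₁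
  · obtain ⟨Q, hQR, hpr⟩ := hw
    obtain ⟨hQ, hT⟩ := hR Q hQR
    obtain ⟨x₁, hb1, hx1⟩ := good hBBV hn2 hnc hfew hfin Q hQ hT true
    refine ⟨sdx (k + 1) n (2 ^ a) σ₀ (tabU (k + 1) H x₁) κ P z, n ^ 2 ^ a,
      (hSDX (k + 1) n a hn2 σ₀ _ κ P z).1, hDec _, spec_other hSDX hSPC hn2 σ₀ _ κ P z,
      fun σ' O' he hB hcor => ?_⟩
    have h1 : ∀ w : List Bool, w.length ≤ n ^ 2 ^ a → O' w = O x₁ w :=
      hBUG _ σ' _ O' (O x₁) _ hA hB (hO x₁) he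
    have h2 : Q.prob O' = Q.prob (O x₁) :=
      hPCG _ O' (O x₁) fun i w hw => h1 w ((hQ i w hw).trans hnc)
    have h3 : List.replicate n false ∈ hlang (k + 1) O' :=
      (hlang_congr hSPC hn1 h1).2 ((hlangX_iff hSPX hSPC (hO x₁)).2 hb1)
    have h4 := hcor.2 (fun h => h h3) Q hQR
    rw [h2] at h4
    have q1 := abs_lt.1 hx1
    linarith [q1.1, q1.2]
  · refine ⟨sdx (k + 1) n (2 ^ a) σ₀ (tabT (k + 1) H) κ P z, n ^ 2 ^ a,
      (hSDX (k + 1) n a hn2 σ₀ _ κ P z).1, hDec _, spec_other hSDX hSPC hn2 σ₀ _ κ P z,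
      fun σ' O' he hB hcor => ?_⟩
    have h1 : ∀ w : List Bool, w.length ≤ n ^ 2 ^ a → O' w = O₁ w :=
      hBUG _ σ' _ O' O₁ _ hA hB hO₁ he
    have h3 : List.replicate n false ∉ hlang (k + 1) O' := fun h =>
      hlangX_not hSPX hSPC hO₁ ((hlang_congr hSPC hn1 h1).1 h)
    obtain ⟨Q, hQR, hpr⟩ := hcor.1 h3
    have h2 : Q.prob O' = Q.prob O₁ :=
      hPCG _ O' O₁ fun i w hw => h1 w (((hR Q hQR).1 i w hw).trans hnc)
    rw [h2] at hpr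
    exact hw ⟨Q, hQR, hpr⟩

end Pool.Agent.H78.OY
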