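import Pool.Agent.H78.OX.All
import Pool.Agent.H78.OX.SZX
import Pool.Agent.H78.OY.FNY

/-!
# Assembly of the theorem with interactive proofs
-/

set_option autoImplicit false

namespace Pool.Agent.H78.OY

open Pool.Agent.H78.OX
open Pool.Agent.H6.NB (pf_BBV pf_PCG pf_COD)
open Pool.Agent.H70.OQ (pf_BUG pf_LAK pf_SPC pf_UNG)

theorem pf_SQY : T_SQY := sqy pf_LAK pf_STX pf_BBV pf_PCG pf_BUG pf_SDX pf_SPX pf_SPC

theorem pf_FNY : T_FNY :=
  fny pf_UNG pf_LAK Pool.Agent.H70.PW.pf_LIM pf_DCX pf_SPC pf_INX pf_SGX pf_SQY pf_SMX pf_YXX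

theorem pf_SZX (s : List Bool) : (exc s).T = 6 ∧ (exc s).Small (2 * 10 ^ 10 * (s.length + 1) ^ 4) :=
  SZX.szx pf_COD s

end Pool.Agent.H78.OY
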